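import Mathlib

set_option autoImplicit false
set_option linter.all false
set_option maxHeartbeats 400000

open Finset

namespace Pool.Agent.H590Z.HC

namespace C2

lemma tsum_sub_le (f : ℤ → ℂ) (S : Finset ℤ) (B : ℝ)
    (h : ∀ F : Finset ℤ, Disjoint F S → ∑ n ∈ F, ‖f n‖ ≤ B) :
    ‖∑' n : ℤ, f n - ∑ n ∈ S, f n‖ ≤ B := by
  have hs : Summable f := by
    refine Summable.of_norm (summable_of_sum_le (fun _ => norm_nonneg _)
      (c := B + ∑ n ∈ S, ‖f n‖) fun F => ?_)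
    rw [← sum_sdiff (inter_subset_left (s₁ := F) (s₂ := S)), sdiff_inter_self_left]
    exact add_le_add (h _ sdiff_disjoint)
      (sum_le_sum_of_subset_of_nonneg inter_subset_right fun _ _ _ => norm_nonneg _)
  refine le_of_tendsto ((hs.hasSum.sub_const (∑ n ∈ S, f n)).norm) ?_
  filter_upwards [Filter.eventually_ge_atTop S] with F hF
  rw [← sum_sdiff hF, add_sub_cancel_right]
  exact (norm_sum_le _ _).trans (h _ sdiff_disjoint)

lemma inv_sq_tail (R : ℕ) (hR : 1 ≤ R) (F : Finset ℤ) (hF : ∀ n ∈ F, (R : ℤ) < |n|) :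
    ∑ n ∈ F, ((n : ℝ) ^ 2)⁻¹ ≤ 2 / R := by
  set N := R + F.sup Int.natAbs with hN
  have h1 : F ⊆ (Ioc R N).image (fun k : ℕ => (k : ℤ)) ∪ (Ioc R N).image (fun k : ℕ => -(k : ℤ)) := by
    intro n hn
    have a := hF n hn
    have b : n.natAbs ≤ F.sup Int.natAbs := le_sup (f := Int.natAbs) hn
    have c : n.natAbs ∈ Ioc R N := by
      rw [mem_Ioc]
      rw [Int.abs_eq_natAbs] at a
      omega
    rw [mem_union]
    rcases Int.natAbs_eq n with h | h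
    · exact Or.inl (mem_image.2 ⟨_, c, h.symm⟩)
    · exact Or.inr (mem_image.2 ⟨_, c, h.symm⟩)
  have h2 := sum_Ioc_inv_sq_le_sub (α := ℝ) (k := R) (n := N) (by omega) (by omega)
  have h3 : (0 : ℝ) ≤ (N : ℝ)⁻¹ := by positivity
  have h4 : ∑ n ∈ (Ioc R N).image (fun k : ℕ => (k : ℤ)), ((n : ℝ) ^ 2)⁻¹ ≤ (R : ℝ)⁻¹ := by
    rw [sum_image fun a _ b _ h => by exact_mod_cast h]
    simp only [Int.cast_natCast]
    linarith
  have h5 : ∑ n ∈ (Ioc R N).image (fun k : ℕ => -(k : ℤ)), ((n : ℝ) ^ 2)⁻¹ ≤ (R : ℝ)⁻¹ := by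
    rw [sum_image fun a _ b _ h => by simpa using h]
    simp only [Int.cast_neg, Int.cast_natCast, neg_sq]
    linarith
  have h6 := sum_union_inter (s₁ := (Ioc R N).image (fun k : ℕ => (k : ℤ)))
    (s₂ := (Ioc R N).image (fun k : ℕ => -(k : ℤ))) (f := fun n : ℤ => ((n : ℝ) ^ 2)⁻¹)
  have h7 : 0 ≤ ∑ n ∈ (Ioc R N).image (fun k : ℕ => (k : ℤ)) ∩
      (Ioc R N).image (fun k : ℕ => -(k : ℤ)), ((n : ℝ) ^ 2)⁻¹ :=
    sum_nonneg fun _ _ => by positivity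
  refine (sum_le_sum_of_subset_of_nonneg h1 fun _ _ _ => by positivity).trans ?_
  rw [div_eq_mul_inv]
  linarith

lemma norm_term (y : ℤ → ℂ) (m n : ℤ) (d : ℝ) (hd : 0 < d) (h : d ≤ |(m : ℝ) + 1 / 2 - n|) :
    ‖y n / ((m : ℂ) + 1 / 2 - n)‖ ≤ ‖y n‖ / d := by
  have e : ((m : ℂ) + 1 / 2 - n) = (((m : ℝ) + 1 / 2 - n : ℝ) : ℂ) := by push_cast; ring
  rw [norm_div, e, Complex.norm_real, Real.norm_eq_abs]
  exact div_le_div_of_nonneg_left (norm_nonneg _) hd h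

lemma half_le (m n : ℤ) (h : 2 * |m| + 1 ≤ |n|) : |(n : ℝ)| / 2 ≤ |(m : ℝ) + 1 / 2 - n| := by
  have h' : 2 * |(m : ℝ)| + 1 ≤ |(n : ℝ)| := by exact_mod_cast h
  have a := abs_sub_abs_le_abs_sub (n : ℝ) ((m : ℝ) + 1 / 2)
  have b := abs_add_le (m : ℝ) (1 / 2)
  rw [abs_sub_comm] at a
  rw [abs_of_pos (show (0 : ℝ) < 1 / 2 by norm_num)] at b
  linarith

lemma tail (y : ℤ → ℂ) (M : ℝ) (hM : 0 ≤ M) (hy : ∀ F : Finset ℤ, ∑ n ∈ F, ‖y n‖ ^ 2 ≤ M ^ 2)
    (m : ℤ) (R : ℕ) (hR : 1 ≤ R) (hm : 2 * |m| ≤ R) (s : ℝ) (hs : 0 < s) (hsR : s ^ 2 = R)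
    (F : Finset ℤ) (hF : ∀ n ∈ F, (R : ℤ) < |n|) :
    ∑ n ∈ F, ‖y n / ((m : ℂ) + 1 / 2 - n)‖ ≤ 3 * M / s := by
  have h1 : ∑ n ∈ F, ‖y n / ((m : ℂ) + 1 / 2 - n)‖ ≤ ∑ n ∈ F, ‖y n‖ * (2 / |(n : ℝ)|) := by
    refine sum_le_sum fun n hn => ?_
    have a := hF n hn
    have b : (0 : ℝ) < |(n : ℝ)| := by
      have : (0 : ℤ) < |n| := by omega
      exact_mod_cast this
    refine (norm_term y m n _ (by positivity) (half_le m n (by omega))).trans (le_of_eq ?_)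
    field_simp
  refine h1.trans (abs_le_of_sq_le_sq' ?_ (by positivity)).2
  refine (sum_mul_sq_le_sq_mul_sq _ _ _).trans ?_
  have h2 : ∑ n ∈ F, (2 / |(n : ℝ)|) ^ 2 ≤ 8 / (R : ℝ) := by
    have : ∑ n ∈ F, (2 / |(n : ℝ)|) ^ 2 = 4 * ∑ n ∈ F, ((n : ℝ) ^ 2)⁻¹ := by
      rw [mul_sum]
      exact sum_congr rfl fun n _ => by rw [div_pow, sq_abs]; ring
    rw [this]
    have := inv_sq_tail R hR F hF
    have e : (8 : ℝ) / R = 4 * (2 / R) := by ring
    linarith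
  calc _ ≤ M ^ 2 * (8 / R) := mul_le_mul (hy F) h2 (sum_nonneg fun _ _ => sq_nonneg _) (sq_nonneg _)
    _ ≤ (3 * M / s) ^ 2 := by
      rw [div_pow, hsR]
      have : (0 : ℝ) < R := by exact_mod_cast hR
      rw [← mul_div_assoc]
      exact div_le_div_of_nonneg_right (by nlinarith [sq_nonneg M]) this.le

end C2

open C2

theorem y_mid (y : ℤ → ℂ) (M r : ℝ) (L q : ℕ) (m : ℤ) (hL : 1 ≤ L) (hM : 1 ≤ M)
    (hq : 1000 * M ^ 2 ≤ 2 ^ q) (hy : ∀ F : Finset ℤ, ∑ n ∈ F, ‖y n‖ ^ 2 ≤ M ^ 2)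
    (hr0 : 0 < r) (hr' : r ≤ 2 ^ (10 * q) * L)
    (hm : (2 : ℤ) ^ (6 * q) * L ≤ |m|) (hm' : |m| ≤ 2 ^ (10 * q) * L) :
    ‖∑' n : ℤ, y n / ((m : ℂ) + 1 / 2 - n) -
      ∑ n ∈ (Icc (-(2 ^ (12 * q) * L : ℤ)) (2 ^ (12 * q) * L)).filter (fun n => (L : ℤ) ≤ |n|),
        y n / ((m : ℂ) + 1 / 2 - n)‖ ≤ 1 / (16 * √r) := by
  refine tsum_sub_le _ _ _ fun F hF => ?_
  obtain ⟨W, hW⟩ : ∃ W : ℕ, W = 2 ^ q := ⟨_, rfl⟩
  have hWr : (W : ℝ) = 2 ^ q := by rw [hW]; push_cast; rfl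
  have hWz : (W : ℤ) = 2 ^ q := by rw [hW]; push_cast; rfl
  have pz : ∀ k : ℕ, (2 : ℤ) ^ (k * q) = (W : ℤ) ^ k := fun k => by rw [hWz, ← pow_mul, mul_comm]
  have pr : ∀ k : ℕ, (2 : ℝ) ^ (k * q) = (W : ℝ) ^ k := fun k => by rw [hWr, ← pow_mul, mul_comm]
  rw [pz] at hm hm' hF
  rw [pr] at hr'
  rw [← hWr] at hq
  have hMW : 1000 * M ≤ W := by nlinarith
  have hW1 : (1000 : ℝ) ≤ W := by linarith
  have hW2 : (1000 : ℤ) ≤ W := by exact_mod_cast hW1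
  have hLr : (1 : ℝ) ≤ L := by exact_mod_cast hL
  have hLz : (1 : ℤ) ≤ L := by exact_mod_cast hL
  set s := √(L : ℝ) with hs
  have hs0 : 0 < s := Real.sqrt_pos.2 (by linarith)
  have hs2 : s ^ 2 = L := Real.sq_sqrt (by linarith)
  have hW0 : (0 : ℝ) < W := by linarith
  have hr : √r ≤ (W : ℝ) ^ 5 * s := by
    rw [Real.sqrt_le_left (by positivity), mul_pow, hs2, ← pow_mul]
    exact hr'
  have hA : ∑ n ∈ F.filter (fun n : ℤ => |n| < L), ‖y n / ((m : ℂ) + 1 / 2 - n)‖ ≤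
      4 * M / (W ^ 6 * s) := by
    have h1 : ∑ n ∈ F.filter (fun n : ℤ => |n| < L), ‖y n / ((m : ℂ) + 1 / 2 - n)‖ ≤
        (∑ n ∈ F.filter (fun n : ℤ => |n| < L), ‖y n‖) / (W ^ 6 * L / 2) := by
      rw [sum_div]
      refine sum_le_sum fun n hn => norm_term y m n _ (by positivity) ?_
      have a : |(n : ℝ)| ≤ L := by exact_mod_cast (mem_filter.1 hn).2.le
      have b : (W : ℝ) ^ 6 * L ≤ |(m : ℝ)| := by exact_mod_cast hm
      have c := abs_sub_abs_le_abs_sub (m : ℝ) ((n : ℝ) - 1 / 2)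
      have d := abs_sub (n : ℝ) (1 / 2)
      rw [abs_of_pos (show (0 : ℝ) < 1 / 2 by norm_num)] at d
      have e : (m : ℝ) - (n - 1 / 2) = m + 1 / 2 - n := by ring
      rw [e] at c
      have f : (4 : ℝ) ≤ W ^ 6 := le_trans (by linarith) (le_self_pow₀ (by linarith) (by norm_num))
      nlinarith
    have h2 : ∑ n ∈ F.filter (fun n : ℤ => |n| < L), ‖y n‖ ≤ 2 * s * M := by
      refine (abs_le_of_sq_le_sq' ?_ (by positivity)).2
      refine sq_sum_le_card_mul_sum_sq.trans ?_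
      have c : ((F.filter (fun n : ℤ => |n| < L)).card : ℝ) ≤ 2 * L := by
        have : F.filter (fun n : ℤ => |n| < L) ⊆ Ico (-(L : ℤ)) L := by
          intro n hn
          have := abs_lt.1 (mem_filter.1 hn).2
          exact mem_Ico.2 ⟨this.1.le, this.2⟩
        have h := card_le_card this
        rw [Int.card_Ico] at h
        have : (F.filter (fun n : ℤ => |n| < L)).card ≤ 2 * L := by omega
        exact_mod_cast this
      calc _ ≤ (2 * L) * M ^ 2 := mul_le_mul c (hy _) (sum_nonneg fun _ _ => sq_nonneg _)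
            (by positivity)
        _ ≤ _ := by rw [mul_pow, mul_pow, hs2]; nlinarith [sq_nonneg M]
    refine h1.trans ((div_le_div_of_nonneg_right h2 (by positivity)).trans (le_of_eq ?_))
    rw [← hs2]
    field_simp
    ring
  have hB : ∑ n ∈ F.filter (fun n : ℤ => ¬ |n| < L), ‖y n / ((m : ℂ) + 1 / 2 - n)‖ ≤
      3 * M / (W ^ 6 * s) := by
    have hp : (0 : ℤ) ≤ (W : ℤ) ^ 10 * L := by positivity
    refine tail y M (by linarith) hy m (W ^ 12 * L) ?_ ?_ _ (by positivity) ?_ _ ?_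
    · have : 0 < W := by exact_mod_cast hW0
      exact Nat.one_le_iff_ne_zero.2 (by positivity)
    · push_cast
      have : (W : ℤ) ^ 12 * L = W ^ 2 * (W ^ 10 * L) := by ring
      rw [this]
      have h2 : (2 : ℤ) ≤ W ^ 2 := by nlinarith
      have h3 := mul_le_mul_of_nonneg_right h2 hp
      linarith
    · rw [mul_pow, hs2]; push_cast; ring
    · intro n hn
      rw [mem_filter] at hn
      by_contra hc
      push_cast at hc
      exact Finset.disjoint_left.1 hF hn.1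
        (mem_filter.2 ⟨mem_Icc.2 (abs_le.1 (not_lt.1 hc)), not_lt.1 hn.2⟩)
  rw [← sum_filter_add_sum_filter_not F (fun n : ℤ => |n| < L)]
  refine (add_le_add hA hB).trans ?_
  have hr1 : 0 < √r := Real.sqrt_pos.2 hr0
  rw [← add_div, div_le_div_iff₀ (by positivity) (by positivity)]
  have : (W : ℝ) ^ 6 * s = W * (W ^ 5 * s) := by ring
  rw [this]
  have h5 : (0 : ℝ) < W ^ 5 * s := by positivity
  nlinarith

theorem y_far (y : ℤ → ℂ) (M E : ℝ) (L q : ℕ) (m : ℤ) (hL : 1 ≤ L) (hM : 1 ≤ M)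
    (hq : 1000 * M ^ 2 ≤ 2 ^ q) (hy : ∀ F : Finset ℤ, ∑ n ∈ F, ‖y n‖ ^ 2 ≤ M ^ 2)
    (hE : 3 * M / 2 ^ q ≤ E)
    (hl1 : ∀ r : ℝ, 2 ^ (8 * q) * L ≤ r → r ≤ 2 ^ (10 * q) * L → ∀ F : Finset ℤ,
      (∀ n ∈ F, ((|n| : ℤ) : ℝ) ≤ r) → ∑ n ∈ F, ‖y n‖ ≤ √r * E)
    (hm : (2 : ℤ) ^ (8 * q) * L ≤ m) (hm' : m ≤ 2 * (2 ^ (8 * q) * L)) :
    ‖∑' n : ℤ, y n / ((m : ℂ) + 1 / 2 - n) -
      ∑ n ∈ Icc (-(4 * (2 ^ (8 * q) * L) : ℤ)) (4 * (2 ^ (8 * q) * L)), y n / ((m : ℂ) + 1 / 2 - n)‖ ≤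
      6 * E / √(2 ^ (8 * q) * L) := by
  refine tsum_sub_le _ _ _ fun F hF => ?_
  obtain ⟨T, hT⟩ : ∃ T : ℕ, T = 2 ^ (8 * q) * L := ⟨_, rfl⟩
  have hTr : (T : ℝ) = 2 ^ (8 * q) * L := by rw [hT]; push_cast; rfl
  have hTz : (T : ℤ) = 2 ^ (8 * q) * L := by rw [hT]; push_cast; rfl
  have hT10 : (2 : ℝ) ^ (10 * q) * L = 4 ^ q * T := by
    rw [hTr, show (4 : ℝ) = 2 ^ 2 by norm_num, ← pow_mul, ← mul_assoc, ← pow_add]
    congr 2
    ring
  rw [← hTz] at hm hm' hF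
  rw [← hTr, hT10] at hl1
  rw [← hTr]
  have hT1 : 1 ≤ T := by
    rw [hT]
    exact Nat.one_le_iff_ne_zero.2 (by positivity)
  have hT0 : (0 : ℝ) < T := by exact_mod_cast hT1
  have hq1 : 1 ≤ q := by
    by_contra h
    have : q = 0 := by omega
    subst this
    nlinarith
  have hE0 : 0 ≤ E := le_trans (by positivity) hE
  set s := √(T : ℝ) with hs
  have hs0 : 0 < s := Real.sqrt_pos.2 hT0
  have hs2 : s ^ 2 = T := Real.sq_sqrt hT0.le
  have hmabs : |m| = m := abs_of_nonneg (by omega)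
  have hF' : ∀ n ∈ F, 4 * (T : ℤ) < |n| := fun n hn => by
    by_contra hc
    exact Finset.disjoint_left.1 hF hn (mem_Icc.2 (abs_le.1 (not_lt.1 hc)))
  have key : ∀ K : ℕ, K + 1 ≤ q →
      ∑ n ∈ F.filter (fun n : ℤ => |n| ≤ 4 ^ (K + 1) * T), ‖y n / ((m : ℂ) + 1 / 2 - n)‖ ≤
        4 * E / s * (1 - 1 / 2 ^ K) := by
    intro K
    induction K with
    | zero =>
      intro _
      rw [filter_false_of_mem fun n hn => not_le.2 (by simpa using hF' n hn)]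
      simp
    | succ K ih =>
      intro hK
      rw [← sum_filter_add_sum_filter_not _ (fun n : ℤ => |n| ≤ 4 ^ (K + 1) * T), filter_filter]
      have e : F.filter (fun n : ℤ => |n| ≤ 4 ^ (K + 1 + 1) * T ∧ |n| ≤ 4 ^ (K + 1) * T) =
          F.filter (fun n : ℤ => |n| ≤ 4 ^ (K + 1) * T) := by
        refine filter_congr fun n _ => ⟨fun h => h.2, fun h => ⟨h.trans ?_, h⟩⟩
        have : (0 : ℤ) ≤ 4 ^ (K + 1) * T := by positivity
        rw [pow_succ (4 : ℤ) (K + 1)]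
        nlinarith
      rw [e]
      have h1 := ih (by omega)
      set G := (F.filter (fun n : ℤ => |n| ≤ 4 ^ (K + 1 + 1) * T)).filter
        (fun n : ℤ => ¬ |n| ≤ 4 ^ (K + 1) * T) with hG
      have h2 : ∑ n ∈ G, ‖y n / ((m : ℂ) + 1 / 2 - n)‖ ≤
          (∑ n ∈ G, ‖y n‖) / (4 ^ (K + 1) * T / 2) := by
        rw [sum_div]
        refine sum_le_sum fun n hn => norm_term y m n _ (by positivity) ?_
        rw [hG, mem_filter, mem_filter] at hn
        have a := hF' n hn.1.1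
        refine le_trans ?_ (half_le m n (by omega))
        have b : (4 : ℝ) ^ (K + 1) * T ≤ |(n : ℝ)| := by exact_mod_cast (not_le.1 hn.2).le
        linarith
      have h3 : ∑ n ∈ G, ‖y n‖ ≤ 2 ^ (K + 2) * s * E := by
        have h4 : √((4 : ℝ) ^ (K + 2) * T) = 2 ^ (K + 2) * s := by
          rw [Real.sqrt_eq_iff_mul_self_eq (by positivity) (by positivity), ← hs2,
            show (4 : ℝ) = 2 * 2 by norm_num, mul_pow]
          ring
        rw [← h4]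
        refine hl1 _ (le_mul_of_one_le_left hT0.le (one_le_pow₀ (by norm_num)))
          (mul_le_mul_of_nonneg_right (pow_le_pow_right₀ (by norm_num) hK) hT0.le) G
          fun n hn => ?_
        rw [hG, mem_filter, mem_filter] at hn
        exact_mod_cast hn.1.2
      have h5 : 2 ^ (K + 2) * s * E / (4 ^ (K + 1) * T / 2) = 4 * E / s * (1 / 2 ^ (K + 1)) := by
        rw [← hs2, show (4 : ℝ) ^ (K + 1) = 2 ^ (K + 1) * 2 ^ (K + 1) by
          rw [← mul_pow]; norm_num]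
        field_simp
        ring
      have h6 := h2.trans ((div_le_div_of_nonneg_right h3 (by positivity)).trans h5.le)
      refine (add_le_add h1 h6).trans (le_of_eq ?_)
      field_simp
      ring
  obtain ⟨K, rfl⟩ : ∃ K, q = K + 1 := ⟨q - 1, by omega⟩
  have hA := key K le_rfl
  have hB : ∑ n ∈ F.filter (fun n : ℤ => ¬ |n| ≤ 4 ^ (K + 1) * T), ‖y n / ((m : ℂ) + 1 / 2 - n)‖ ≤
      3 * M / (2 ^ (K + 1) * s) := by
    refine tail y M (by linarith) hy m (4 ^ (K + 1) * T) ?_ ?_ _ (by positivity) ?_ _ ?_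
    · exact Nat.one_le_iff_ne_zero.2 (by positivity)
    · push_cast
      have : (1 : ℤ) ≤ 4 ^ K := one_le_pow₀ (by norm_num)
      rw [pow_succ, hmabs]
      have : (0 : ℤ) ≤ T := by positivity
      nlinarith
    · rw [mul_pow, hs2, ← pow_mul, mul_comm (K + 1) 2, pow_mul]
      push_cast
      norm_num
    · intro n hn
      push_cast
      exact not_le.1 (mem_filter.1 hn).2
  rw [← sum_filter_add_sum_filter_not F (fun n : ℤ => |n| ≤ 4 ^ (K + 1) * T)]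
  refine (add_le_add hA hB).trans ?_
  have h1 : 3 * M / (2 ^ (K + 1) * s) ≤ E / s := by
    rw [← div_div]
    exact div_le_div_of_nonneg_right hE hs0.le
  have h2 : 4 * E / s * (1 - 1 / 2 ^ K) ≤ 4 * E / s :=
    mul_le_of_le_one_right (by positivity) (by
      have : (0 : ℝ) ≤ 1 / 2 ^ K := by positivity
      linarith)
  have h3 : 0 ≤ E / s := by positivity
  have e1 : 4 * E / s = 4 * (E / s) := by ring
  have e2 : 6 * E / s = 6 * (E / s) := by ring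
  linarith

end Pool.Agent.H590Z.HC
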